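import Pool.Agent.OMF.Stmts

/-! Row COR of squad OMF (MP_7e2fab_co). -/

set_option autoImplicit false

namespace Pool.Agent.OMF.H62

open Pool.Agent

theorem isLine_pair (p q : ℝ × ℝ) (h : p ≠ q) : OM.IsLine (line[ℝ, p, q]) := by
  unfold OM.IsLine
  rw [direction_affineSpan, vectorSpan_pair, finrank_span_singleton]
  rw [vsub_ne_zero]
  exact h

/-- an ordinary line has no omissible point -/
theorem ord_sub {X : Set (ℝ × ℝ)} (hfin : X.Finite) {L : AffineSubspace ℝ (ℝ × ℝ)}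
    (hL : L ∈ OM.Spanned X) (h2 : (X ∩ L).ncard = 2) :
    X ∩ L ⊆ {x ∈ X | ¬ OM.Omissible X x} := by
  rintro p ⟨hpX, hpL⟩
  refine ⟨hpX, fun ho => ?_⟩
  rw [← ho.2] at hL
  obtain ⟨a, ha, b, hb, hab, rfl⟩ := hL
  have hsub : ({a, b, p} : Set (ℝ × ℝ)) ⊆ X ∩ line[ℝ, a, b] := by
    intro x hx
    rcases hx with rfl | rfl | rfl
    · exact ⟨ha.1, left_mem_affineSpan_pair ℝ _ _⟩
    · exact ⟨hb.1, right_mem_affineSpan_pair ℝ _ _⟩
    · exact ⟨hpX, hpL⟩
  have h3 : ({a, b, p} : Set (ℝ × ℝ)).ncard = 3 := by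
    rw [Set.ncard_eq_three]
    exact ⟨a, b, p, hab, fun h => ha.2 h, fun h => hb.2 h, rfl⟩
  have := Set.ncard_le_ncard hsub (hfin.subset Set.inter_subset_left)
  omega

theorem cor (_h1 : BraStmt) (h2 : FinStmt) : CorStmt := by
  intro X hfin hX
  classical
  set B : Set (ℝ × ℝ) := {x ∈ X | ¬ OM.Omissible X x} with hB
  have hBfin : B.Finite := hfin.subset (fun x hx => hx.1)
  have hOfin : {x | OM.Omissible X x}.Finite := hfin.subset (fun x hx => hx.1)
  have hsplit : {x | OM.Omissible X x}.ncard + B.ncard = X.ncard := by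
    rw [← Set.ncard_union_eq ?_ hOfin hBfin]
    · congr 1
      ext x
      constructor
      · rintro (hx | hx)
        · exact hx.1
        · exact hx.1
      · intro hx
        by_cases ho : OM.Omissible X x
        · exact Or.inl ho
        · exact Or.inr ⟨hx, ho⟩
    · rw [Set.disjoint_left]
      intro x hx hx'
      exact hx'.2 hx
  have hf : ∀ L : AffineSubspace ℝ (ℝ × ℝ), (X ∩ L).Finite := fun L =>
    hfin.subset Set.inter_subset_left
  have hT : {L ∈ OM.Spanned X | (X ∩ L).ncard = 2}.ncard ≤ B.ncard.choose 2 := by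
    have hle : {L ∈ OM.Spanned X | (X ∩ L).ncard = 2}.ncard ≤
        ((hBfin.toFinset.powersetCard 2 : Finset (Finset (ℝ × ℝ))) : Set (Finset (ℝ × ℝ))).ncard := by
      apply Set.ncard_le_ncard_of_injOn (fun L => (hf L).toFinset)
      · intro L hL
        rw [Finset.mem_coe, Finset.mem_powersetCard]
        refine ⟨?_, ?_⟩
        · intro x hx
          rw [Set.Finite.mem_toFinset] at hx ⊢
          exact ord_sub hfin hL.1 hL.2 hx
        · rw [← Set.ncard_eq_toFinset_card _ (hf L)]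
          exact hL.2
      · intro L hL L' hL' he
        have he' : X ∩ (L : Set (ℝ × ℝ)) = X ∩ L' := by
          have := congrArg (fun s : Finset (ℝ × ℝ) => (s : Set (ℝ × ℝ))) he
          simpa using this
        obtain ⟨⟨a, ha, b, hb, hab, rfl⟩, -⟩ := hL
        obtain ⟨⟨a', ha', b', hb', hab', rfl⟩, -⟩ := hL'
        have m1 : a ∈ X ∩ (line[ℝ, a', b'] : Set (ℝ × ℝ)) := by
          rw [← he']
          exact ⟨ha, left_mem_affineSpan_pair ℝ _ _⟩
        have m2 : b ∈ X ∩ (line[ℝ, a', b'] : Set (ℝ × ℝ)) := by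
          rw [← he']
          exact ⟨hb, right_mem_affineSpan_pair ℝ _ _⟩
        exact OM.line_uniq (isLine_pair a b hab) (isLine_pair a' b' hab') hab
          (left_mem_affineSpan_pair ℝ _ _) (right_mem_affineSpan_pair ℝ _ _) m1.2 m2.2
    rw [Set.ncard_coe_finset, Finset.card_powersetCard] at hle
    rwa [← Set.ncard_eq_toFinset_card _ hBfin] at hle
  have hF := h2 X hfin hX
  set T := {L ∈ OM.Spanned X | (X ∩ L).ncard = 2}.ncard with hTdef
  set m := {x | OM.Omissible X x}.ncard with hm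
  set b := B.ncard with hb
  set n := X.ncard with hn
  have hT2 : 2 * T ≤ b * b := by
    have h3 : 2 * b.choose 2 ≤ b * b := by
      rw [Nat.choose_two_right]
      have := Nat.mul_div_le (b * (b - 1)) 2
      have h4 : b * (b - 1) ≤ b * b := Nat.mul_le_mul_left b (Nat.sub_le b 1)
      omega
    omega
  rcases Nat.lt_or_ge n (3 * b) with h3 | h3
  · have hb1 : 1 ≤ b := by omega
    have h5 : n ^ 3 ≤ (3 * b) ^ 3 := Nat.pow_le_pow_left h3.le 3
    have h6 : (3 * b) ^ 3 ≤ 27 * b ^ 4 := by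
      have : b ^ 3 ≤ b ^ 4 := Nat.pow_le_pow_right hb1 (by norm_num)
      have e : (3 * b) ^ 3 = 27 * b ^ 3 := by ring
      omega
    have h7 : 27 * b ^ 4 ≤ 10 ^ 21 * b ^ 4 := Nat.mul_le_mul_right _ (by norm_num)
    omega
  · have h5 : n ≤ 3 * m - n := by omega
    have h6 : n ^ 5 ≤ 10 ^ 21 * (n ^ 2 * T ^ 2) := (Nat.pow_le_pow_left h5 5).trans hF
    have h7 : T ^ 2 ≤ b ^ 4 := by
      have : T ≤ b ^ 2 := by rw [sq]; omega
      calc T ^ 2 ≤ (b ^ 2) ^ 2 := Nat.pow_le_pow_left this 2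
        _ = b ^ 4 := by ring
    rcases Nat.eq_zero_or_pos n with h0 | h0
    · rw [h0]; simp
    · have h8 : n ^ 2 * n ^ 3 ≤ n ^ 2 * (10 ^ 21 * b ^ 4) := by
        calc n ^ 2 * n ^ 3 = n ^ 5 := by ring
          _ ≤ 10 ^ 21 * (n ^ 2 * T ^ 2) := h6
          _ = n ^ 2 * (10 ^ 21 * T ^ 2) := by ring
          _ ≤ n ^ 2 * (10 ^ 21 * b ^ 4) := by gcongr
      exact Nat.le_of_mul_le_mul_left h8 (by positivity)

end Pool.Agent.OMF.H62
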